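import Mathlib

/-!
# The distance spectrum does not determine whether a graph is bipartite
-/

set_option autoImplicit false

namespace Pool.Agent.Results.MP_69260a_co.TwentyVertices

open Matrix

/-- the distance matrix of a graph -/
noncomputable def distMatrix {V : Type*} (G : SimpleGraph V) : Matrix V V ℝ :=
  Matrix.of fun i j => (G.dist i j : ℝ)

/-- The distance spectrum: the multiset of eigenvalues of the distance matrix, that is, the roots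
of its characteristic polynomial with multiplicity (a real symmetric matrix has only real
eigenvalues). -/
noncomputable def distSpectrum {V : Type*} [Fintype V] [DecidableEq V] (G : SimpleGraph V) :
    Multiset ℝ := (distMatrix G).charpoly.roots

/-! ### Certificates for distances -/

section cert

variable {V : Type*} (G : SimpleGraph V) (d : V → V → ℕ) (p : V → V → V)

theorem le_walk (hlip : ∀ v a b, G.Adj a b → d v b ≤ d v a + 1) (v : V) :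
    ∀ {a b : V} (w : G.Walk a b), d v b ≤ d v a + w.length := by
  intro a b w
  induction w with
  | nil => simp
  | cons h w ih =>
    have := hlip v _ _ h
    rw [SimpleGraph.Walk.length_cons]
    omega

theorem exists_walk (hd : ∀ v w, d v w = 0 → w = v)
    (hp : ∀ v w, d v w ≠ 0 → G.Adj (p v w) w ∧ d v (p v w) + 1 = d v w) (v : V) :
    ∀ (k : ℕ) (w : V), d v w = k → ∃ q : G.Walk v w, q.length = k := by
  intro k
  induction k with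
  | zero =>
    intro w hw
    have := hd v w hw
    subst this
    exact ⟨SimpleGraph.Walk.nil, rfl⟩
  | succ k ih =>
    intro w hw
    obtain ⟨hadj, hk⟩ := hp v w (by omega)
    obtain ⟨q, hq⟩ := ih (p v w) (by omega)
    exact ⟨q.append (SimpleGraph.Walk.cons hadj SimpleGraph.Walk.nil), by
      rw [SimpleGraph.Walk.length_append, hq]; rfl⟩

theorem dist_eq (h0 : ∀ v, d v v = 0) (hlip : ∀ v a b, G.Adj a b → d v b ≤ d v a + 1)
    (hd : ∀ v w, d v w = 0 → w = v)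
    (hp : ∀ v w, d v w ≠ 0 → G.Adj (p v w) w ∧ d v (p v w) + 1 = d v w) (v w : V) :
    G.dist v w = d v w := by
  obtain ⟨q, hq⟩ := exists_walk G d p hd hp v (d v w) w rfl
  apply le_antisymm
  · rw [← hq]
    exact SimpleGraph.dist_le q
  · obtain ⟨q', hq'⟩ := (SimpleGraph.Walk.reachable q).exists_walk_length_eq_dist
    have := le_walk G d hlip v q'
    rw [h0, hq'] at this
    omega

theorem connected (hd : ∀ v w, d v w = 0 → w = v)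
    (hp : ∀ v w, d v w ≠ 0 → G.Adj (p v w) w ∧ d v (p v w) + 1 = d v w) [Nonempty V] :
    G.Connected := by
  refine ⟨fun v w => ?_⟩
  obtain ⟨q, _⟩ := exists_walk G d p hd hp v (d v w) w rfl
  exact q.reachable

end cert

/-! ### The two graphs -/

/-- neighbourhoods of the bipartite graph, as bit masks -/
def m1 : Fin 20 → ℕ :=
  ![1048568, 1048568, 1048512, 3, 3, 3, 7, 7, 7, 7, 7, 7, 7, 7, 7, 7, 7, 7, 7, 7]

/-- neighbourhoods of the non-bipartite graph, as bit masks -/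
def m2 : Fin 20 → ℕ :=
  ![1048568, 1046528, 1046528, 524289, 524289, 524289, 524289, 524289, 524289, 524289, 524289, 7, 7, 7, 7, 7, 7, 7, 7, 2047]

/-- the bipartite graph: a path on four vertices with its vertices replaced by independent sets
of sizes 1, 14, 2, 3 -/
def G1 : SimpleGraph (Fin 20) where
  Adj i j := (m1 i).testBit j = true
  symm := ⟨by decide +kernel⟩
  loopless := ⟨by decide +kernel⟩

/-- the non-bipartite graph -/
def G2 : SimpleGraph (Fin 20) where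
  Adj i j := (m2 i).testBit j = true
  symm := ⟨by decide +kernel⟩
  loopless := ⟨by decide +kernel⟩

instance : DecidableRel G1.Adj := fun i j => inferInstanceAs (Decidable ((m1 i).testBit j = true))
instance : DecidableRel G2.Adj := fun i j => inferInstanceAs (Decidable ((m2 i).testBit j = true))

/-- distances in `G1` -/
def d1 : Fin 20 → Fin 20 → ℕ :=
  ![![0, 2, 2, 1, 1, 1, 1, 1, 1, 1, 1, 1, 1, 1, 1, 1, 1, 1, 1, 1],
    ![2, 0, 2, 1, 1, 1, 1, 1, 1, 1, 1, 1, 1, 1, 1, 1, 1, 1, 1, 1],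
    ![2, 2, 0, 3, 3, 3, 1, 1, 1, 1, 1, 1, 1, 1, 1, 1, 1, 1, 1, 1],
    ![1, 1, 3, 0, 2, 2, 2, 2, 2, 2, 2, 2, 2, 2, 2, 2, 2, 2, 2, 2],
    ![1, 1, 3, 2, 0, 2, 2, 2, 2, 2, 2, 2, 2, 2, 2, 2, 2, 2, 2, 2],
    ![1, 1, 3, 2, 2, 0, 2, 2, 2, 2, 2, 2, 2, 2, 2, 2, 2, 2, 2, 2],
    ![1, 1, 1, 2, 2, 2, 0, 2, 2, 2, 2, 2, 2, 2, 2, 2, 2, 2, 2, 2],
    ![1, 1, 1, 2, 2, 2, 2, 0, 2, 2, 2, 2, 2, 2, 2, 2, 2, 2, 2, 2],
    ![1, 1, 1, 2, 2, 2, 2, 2, 0, 2, 2, 2, 2, 2, 2, 2, 2, 2, 2, 2],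
    ![1, 1, 1, 2, 2, 2, 2, 2, 2, 0, 2, 2, 2, 2, 2, 2, 2, 2, 2, 2],
    ![1, 1, 1, 2, 2, 2, 2, 2, 2, 2, 0, 2, 2, 2, 2, 2, 2, 2, 2, 2],
    ![1, 1, 1, 2, 2, 2, 2, 2, 2, 2, 2, 0, 2, 2, 2, 2, 2, 2, 2, 2],
    ![1, 1, 1, 2, 2, 2, 2, 2, 2, 2, 2, 2, 0, 2, 2, 2, 2, 2, 2, 2],
    ![1, 1, 1, 2, 2, 2, 2, 2, 2, 2, 2, 2, 2, 0, 2, 2, 2, 2, 2, 2],
    ![1, 1, 1, 2, 2, 2, 2, 2, 2, 2, 2, 2, 2, 2, 0, 2, 2, 2, 2, 2],
    ![1, 1, 1, 2, 2, 2, 2, 2, 2, 2, 2, 2, 2, 2, 2, 0, 2, 2, 2, 2],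
    ![1, 1, 1, 2, 2, 2, 2, 2, 2, 2, 2, 2, 2, 2, 2, 2, 0, 2, 2, 2],
    ![1, 1, 1, 2, 2, 2, 2, 2, 2, 2, 2, 2, 2, 2, 2, 2, 2, 0, 2, 2],
    ![1, 1, 1, 2, 2, 2, 2, 2, 2, 2, 2, 2, 2, 2, 2, 2, 2, 2, 0, 2],
    ![1, 1, 1, 2, 2, 2, 2, 2, 2, 2, 2, 2, 2, 2, 2, 2, 2, 2, 2, 0]]

/-- distances in `G2` -/
def d2 : Fin 20 → Fin 20 → ℕ :=
  ![![0, 2, 2, 1, 1, 1, 1, 1, 1, 1, 1, 1, 1, 1, 1, 1, 1, 1, 1, 1],
    ![2, 0, 2, 2, 2, 2, 2, 2, 2, 2, 2, 1, 1, 1, 1, 1, 1, 1, 1, 1],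
    ![2, 2, 0, 2, 2, 2, 2, 2, 2, 2, 2, 1, 1, 1, 1, 1, 1, 1, 1, 1],
    ![1, 2, 2, 0, 2, 2, 2, 2, 2, 2, 2, 2, 2, 2, 2, 2, 2, 2, 2, 1],
    ![1, 2, 2, 2, 0, 2, 2, 2, 2, 2, 2, 2, 2, 2, 2, 2, 2, 2, 2, 1],
    ![1, 2, 2, 2, 2, 0, 2, 2, 2, 2, 2, 2, 2, 2, 2, 2, 2, 2, 2, 1],
    ![1, 2, 2, 2, 2, 2, 0, 2, 2, 2, 2, 2, 2, 2, 2, 2, 2, 2, 2, 1],
    ![1, 2, 2, 2, 2, 2, 2, 0, 2, 2, 2, 2, 2, 2, 2, 2, 2, 2, 2, 1],
    ![1, 2, 2, 2, 2, 2, 2, 2, 0, 2, 2, 2, 2, 2, 2, 2, 2, 2, 2, 1],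
    ![1, 2, 2, 2, 2, 2, 2, 2, 2, 0, 2, 2, 2, 2, 2, 2, 2, 2, 2, 1],
    ![1, 2, 2, 2, 2, 2, 2, 2, 2, 2, 0, 2, 2, 2, 2, 2, 2, 2, 2, 1],
    ![1, 1, 1, 2, 2, 2, 2, 2, 2, 2, 2, 0, 2, 2, 2, 2, 2, 2, 2, 2],
    ![1, 1, 1, 2, 2, 2, 2, 2, 2, 2, 2, 2, 0, 2, 2, 2, 2, 2, 2, 2],
    ![1, 1, 1, 2, 2, 2, 2, 2, 2, 2, 2, 2, 2, 0, 2, 2, 2, 2, 2, 2],
    ![1, 1, 1, 2, 2, 2, 2, 2, 2, 2, 2, 2, 2, 2, 0, 2, 2, 2, 2, 2],
    ![1, 1, 1, 2, 2, 2, 2, 2, 2, 2, 2, 2, 2, 2, 2, 0, 2, 2, 2, 2],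
    ![1, 1, 1, 2, 2, 2, 2, 2, 2, 2, 2, 2, 2, 2, 2, 2, 0, 2, 2, 2],
    ![1, 1, 1, 2, 2, 2, 2, 2, 2, 2, 2, 2, 2, 2, 2, 2, 2, 0, 2, 2],
    ![1, 1, 1, 2, 2, 2, 2, 2, 2, 2, 2, 2, 2, 2, 2, 2, 2, 2, 0, 2],
    ![1, 1, 1, 1, 1, 1, 1, 1, 1, 1, 1, 2, 2, 2, 2, 2, 2, 2, 2, 0]]

/-- predecessors on geodesics in `G1` -/
def p1 : Fin 20 → Fin 20 → Fin 20 :=
  ![![0, 3, 6, 0, 0, 0, 0, 0, 0, 0, 0, 0, 0, 0, 0, 0, 0, 0, 0, 0],
    ![3, 1, 6, 1, 1, 1, 1, 1, 1, 1, 1, 1, 1, 1, 1, 1, 1, 1, 1, 1],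
    ![6, 6, 2, 0, 0, 0, 2, 2, 2, 2, 2, 2, 2, 2, 2, 2, 2, 2, 2, 2],
    ![3, 3, 6, 3, 0, 0, 0, 0, 0, 0, 0, 0, 0, 0, 0, 0, 0, 0, 0, 0],
    ![4, 4, 6, 0, 4, 0, 0, 0, 0, 0, 0, 0, 0, 0, 0, 0, 0, 0, 0, 0],
    ![5, 5, 6, 0, 0, 5, 0, 0, 0, 0, 0, 0, 0, 0, 0, 0, 0, 0, 0, 0],
    ![6, 6, 6, 0, 0, 0, 6, 0, 0, 0, 0, 0, 0, 0, 0, 0, 0, 0, 0, 0],
    ![7, 7, 7, 0, 0, 0, 0, 7, 0, 0, 0, 0, 0, 0, 0, 0, 0, 0, 0, 0],
    ![8, 8, 8, 0, 0, 0, 0, 0, 8, 0, 0, 0, 0, 0, 0, 0, 0, 0, 0, 0],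
    ![9, 9, 9, 0, 0, 0, 0, 0, 0, 9, 0, 0, 0, 0, 0, 0, 0, 0, 0, 0],
    ![10, 10, 10, 0, 0, 0, 0, 0, 0, 0, 10, 0, 0, 0, 0, 0, 0, 0, 0, 0],
    ![11, 11, 11, 0, 0, 0, 0, 0, 0, 0, 0, 11, 0, 0, 0, 0, 0, 0, 0, 0],
    ![12, 12, 12, 0, 0, 0, 0, 0, 0, 0, 0, 0, 12, 0, 0, 0, 0, 0, 0, 0],
    ![13, 13, 13, 0, 0, 0, 0, 0, 0, 0, 0, 0, 0, 13, 0, 0, 0, 0, 0, 0],
    ![14, 14, 14, 0, 0, 0, 0, 0, 0, 0, 0, 0, 0, 0, 14, 0, 0, 0, 0, 0],
    ![15, 15, 15, 0, 0, 0, 0, 0, 0, 0, 0, 0, 0, 0, 0, 15, 0, 0, 0, 0],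
    ![16, 16, 16, 0, 0, 0, 0, 0, 0, 0, 0, 0, 0, 0, 0, 0, 16, 0, 0, 0],
    ![17, 17, 17, 0, 0, 0, 0, 0, 0, 0, 0, 0, 0, 0, 0, 0, 0, 17, 0, 0],
    ![18, 18, 18, 0, 0, 0, 0, 0, 0, 0, 0, 0, 0, 0, 0, 0, 0, 0, 18, 0],
    ![19, 19, 19, 0, 0, 0, 0, 0, 0, 0, 0, 0, 0, 0, 0, 0, 0, 0, 0, 19]]

/-- predecessors on geodesics in `G2` -/
def p2 : Fin 20 → Fin 20 → Fin 20 :=
  ![![0, 11, 11, 0, 0, 0, 0, 0, 0, 0, 0, 0, 0, 0, 0, 0, 0, 0, 0, 0],
    ![11, 1, 11, 19, 19, 19, 19, 19, 19, 19, 19, 1, 1, 1, 1, 1, 1, 1, 1, 1],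
    ![11, 11, 2, 19, 19, 19, 19, 19, 19, 19, 19, 2, 2, 2, 2, 2, 2, 2, 2, 2],
    ![3, 19, 19, 3, 0, 0, 0, 0, 0, 0, 0, 0, 0, 0, 0, 0, 0, 0, 0, 3],
    ![4, 19, 19, 0, 4, 0, 0, 0, 0, 0, 0, 0, 0, 0, 0, 0, 0, 0, 0, 4],
    ![5, 19, 19, 0, 0, 5, 0, 0, 0, 0, 0, 0, 0, 0, 0, 0, 0, 0, 0, 5],
    ![6, 19, 19, 0, 0, 0, 6, 0, 0, 0, 0, 0, 0, 0, 0, 0, 0, 0, 0, 6],
    ![7, 19, 19, 0, 0, 0, 0, 7, 0, 0, 0, 0, 0, 0, 0, 0, 0, 0, 0, 7],
    ![8, 19, 19, 0, 0, 0, 0, 0, 8, 0, 0, 0, 0, 0, 0, 0, 0, 0, 0, 8],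
    ![9, 19, 19, 0, 0, 0, 0, 0, 0, 9, 0, 0, 0, 0, 0, 0, 0, 0, 0, 9],
    ![10, 19, 19, 0, 0, 0, 0, 0, 0, 0, 10, 0, 0, 0, 0, 0, 0, 0, 0, 10],
    ![11, 11, 11, 0, 0, 0, 0, 0, 0, 0, 0, 11, 0, 0, 0, 0, 0, 0, 0, 0],
    ![12, 12, 12, 0, 0, 0, 0, 0, 0, 0, 0, 0, 12, 0, 0, 0, 0, 0, 0, 0],
    ![13, 13, 13, 0, 0, 0, 0, 0, 0, 0, 0, 0, 0, 13, 0, 0, 0, 0, 0, 0],
    ![14, 14, 14, 0, 0, 0, 0, 0, 0, 0, 0, 0, 0, 0, 14, 0, 0, 0, 0, 0],
    ![15, 15, 15, 0, 0, 0, 0, 0, 0, 0, 0, 0, 0, 0, 0, 15, 0, 0, 0, 0],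
    ![16, 16, 16, 0, 0, 0, 0, 0, 0, 0, 0, 0, 0, 0, 0, 0, 16, 0, 0, 0],
    ![17, 17, 17, 0, 0, 0, 0, 0, 0, 0, 0, 0, 0, 0, 0, 0, 0, 17, 0, 0],
    ![18, 18, 18, 0, 0, 0, 0, 0, 0, 0, 0, 0, 0, 0, 0, 0, 0, 0, 18, 0],
    ![19, 19, 19, 19, 19, 19, 19, 19, 19, 19, 19, 0, 0, 0, 0, 0, 0, 0, 0, 19]]

/-- an intertwiner -/
def P : Fin 20 → Fin 20 → ℤ :=
  ![![40362, 40362, 27426, -15848, -15848, -15848, 4380, 4380, 4380, 4380, 4380, 4380, 4380, 4380, 4380, 4380, 4380, 4380, 4380, 4044],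
    ![40173, 40131, 798, 34076, 34076, 34076, -3198, -3198, -3198, -3198, -3198, -3198, -3198, -3198, -3198, -3198, -3198, -3198, -3198, -3030],
    ![40131, 40173, 798, 34076, 34076, 34076, -3198, -3198, -3198, -3198, -3198, -3198, -3198, -3198, -3198, -3198, -3198, -3198, -3198, -3030],
    ![-1239, -1239, 36204, 1036, 994, 994, 7680, 7638, 7638, 7638, 7638, 7638, 7680, 7680, 7680, 7680, 7680, 7680, 7680, 7680],
    ![-1239, -1239, 36204, 994, 1036, 994, 7665, 7665, 7665, 7665, 7665, 7665, 7665, 7665, 7665, 7665, 7665, 7665, 7665, 7665],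
    ![-1239, -1239, 36204, 994, 994, 1036, 7665, 7665, 7665, 7665, 7665, 7665, 7665, 7665, 7665, 7665, 7665, 7665, 7665, 7665],
    ![-1239, -1239, 36204, 1008, 1008, 1008, 7662, 7704, 7662, 7662, 7662, 7662, 7662, 7662, 7662, 7662, 7662, 7662, 7662, 7662],
    ![-1239, -1239, 36204, 1008, 1008, 1008, 7662, 7662, 7704, 7662, 7662, 7662, 7662, 7662, 7662, 7662, 7662, 7662, 7662, 7662],
    ![-1239, -1239, 36204, 1008, 1008, 1008, 7662, 7662, 7662, 7704, 7662, 7662, 7662, 7662, 7662, 7662, 7662, 7662, 7662, 7662],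
    ![-1239, -1239, 36204, 1008, 1008, 1008, 7662, 7662, 7662, 7662, 7704, 7662, 7662, 7662, 7662, 7662, 7662, 7662, 7662, 7662],
    ![-1239, -1239, 36204, 1008, 1008, 1008, 7662, 7662, 7662, 7662, 7662, 7704, 7662, 7662, 7662, 7662, 7662, 7662, 7662, 7662],
    ![-210, -210, -26628, 14126, 14126, 14126, 7824, 7824, 7824, 7824, 7824, 7824, 7782, 7782, 7782, 7782, 7782, 7782, 7782, 7782],
    ![-210, -210, -26628, 14126, 14126, 14126, 7800, 7800, 7800, 7800, 7800, 7800, 7842, 7800, 7800, 7800, 7800, 7800, 7800, 7758],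
    ![-210, -210, -26628, 14126, 14126, 14126, 7800, 7800, 7800, 7800, 7800, 7800, 7800, 7842, 7800, 7800, 7800, 7800, 7800, 7758],
    ![-210, -210, -26628, 14126, 14126, 14126, 7800, 7800, 7800, 7800, 7800, 7800, 7800, 7800, 7842, 7800, 7800, 7800, 7800, 7758],
    ![-210, -210, -26628, 14126, 14126, 14126, 7800, 7800, 7800, 7800, 7800, 7800, 7800, 7800, 7800, 7842, 7800, 7800, 7800, 7758],
    ![-210, -210, -26628, 14126, 14126, 14126, 7800, 7800, 7800, 7800, 7800, 7800, 7800, 7800, 7800, 7800, 7842, 7800, 7800, 7758],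
    ![-210, -210, -26628, 14126, 14126, 14126, 7800, 7800, 7800, 7800, 7800, 7800, 7800, 7800, 7800, 7800, 7800, 7842, 7800, 7758],
    ![-210, -210, -26628, 14126, 14126, 14126, 7800, 7800, 7800, 7800, 7800, 7800, 7800, 7800, 7800, 7800, 7800, 7800, 7842, 7758],
    ![0, 0, 0, -35798, -35798, -35798, 15318, 15318, 15318, 15318, 15318, 15318, 15318, 15318, 15318, 15318, 15318, 15318, 15318, 15654]]

/-- a multiple of its inverse -/
def Q : Fin 20 → Fin 20 → ℤ :=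
  ![![30548, 60586106, -60554326, -3423, -3423, -3423, -3423, -3423, -3423, -3423, -3423, -602, -602, -602, -602, -602, -602, -602, -602, 14056],
    ![30548, -60554326, 60586106, -3423, -3423, -3423, -3423, -3423, -3423, -3423, -3423, -602, -602, -602, -602, -602, -602, -602, -602, 14056],
    ![-3528, 3108, 3108, 12138, 12138, 12138, 12138, 12138, 12138, 12138, 12138, -7812, -7812, -7812, -7812, -7812, -7812, -7812, -7812, -14448],
    ![-13496, 7252, 7252, 30288426, -90852006, -90852006, 30288426, 30288426, 30288426, 30288426, 30288426, 2828, 2828, 2828, 2828, 2828, 2828, 2828, 2828, -17920],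
    ![-13496, 7252, 7252, -15139236, 106001196, -15139236, -15139236, -15139236, -15139236, -15139236, -15139236, 2828, 2828, 2828, 2828, 2828, 2828, 2828, 2828, -17920],
    ![-13496, 7252, 7252, -15139236, -15139236, 106001196, -15139236, -15139236, -15139236, -15139236, -15139236, 2828, 2828, 2828, 2828, 2828, 2828, 2828, 2828, -17920],
    ![5770868, -2885182, -2885182, 75714429, 75714429, 75714429, -45426003, -45426003, -45426003, -45426003, -45426003, 106721494, -14418938, -14418938, -14418938, -14418938, -14418938, -14418938, -14418938, -5762888],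
    ![2276, -886, -886, -15140895, -15140895, -15140895, 105999537, -15140895, -15140895, -15140895, -15140895, 2542, 2542, 2542, 2542, 2542, 2542, 2542, 2542, 5704],
    ![2276, -886, -886, -15140895, -15140895, -15140895, -15140895, 105999537, -15140895, -15140895, -15140895, 2542, 2542, 2542, 2542, 2542, 2542, 2542, 2542, 5704],
    ![2276, -886, -886, -15140895, -15140895, -15140895, -15140895, -15140895, 105999537, -15140895, -15140895, 2542, 2542, 2542, 2542, 2542, 2542, 2542, 2542, 5704],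
    ![2276, -886, -886, -15140895, -15140895, -15140895, -15140895, -15140895, -15140895, 105999537, -15140895, 2542, 2542, 2542, 2542, 2542, 2542, 2542, 2542, 5704],
    ![2276, -886, -886, -15140895, -15140895, -15140895, -15140895, -15140895, -15140895, -15140895, 105999537, 2542, 2542, 2542, 2542, 2542, 2542, 2542, 2542, 5704],
    ![2276, -886, -886, 1659, 1659, 1659, 1659, 1659, 1659, 1659, 1659, -15140012, 106000420, -15140012, -15140012, -15140012, -15140012, -15140012, -15140012, 5704],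
    ![2276, -886, -886, 1659, 1659, 1659, 1659, 1659, 1659, 1659, 1659, -15140012, -15140012, 106000420, -15140012, -15140012, -15140012, -15140012, -15140012, 5704],
    ![2276, -886, -886, 1659, 1659, 1659, 1659, 1659, 1659, 1659, 1659, -15140012, -15140012, -15140012, 106000420, -15140012, -15140012, -15140012, -15140012, 5704],
    ![2276, -886, -886, 1659, 1659, 1659, 1659, 1659, 1659, 1659, 1659, -15140012, -15140012, -15140012, -15140012, 106000420, -15140012, -15140012, -15140012, 5704],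
    ![2276, -886, -886, 1659, 1659, 1659, 1659, 1659, 1659, 1659, 1659, -15140012, -15140012, -15140012, -15140012, -15140012, 106000420, -15140012, -15140012, 5704],
    ![2276, -886, -886, 1659, 1659, 1659, 1659, 1659, 1659, 1659, 1659, -15140012, -15140012, -15140012, -15140012, -15140012, -15140012, 106000420, -15140012, 5704],
    ![2276, -886, -886, 1659, 1659, 1659, 1659, 1659, 1659, 1659, 1659, -15140012, -15140012, -15140012, -15140012, -15140012, -15140012, -15140012, 106000420, 5704],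
    ![-5766316, 2883410, 2883410, 1659, 1659, 1659, 1659, 1659, 1659, 1659, 1659, -718532, -718532, -718532, -718532, -718532, -718532, -718532, -718532, 5774296]]

theorem d1_zero : ∀ v, d1 v v = 0 := by decide +kernel
theorem d2_zero : ∀ v, d2 v v = 0 := by decide +kernel
theorem d1_eq : ∀ v w, d1 v w = 0 → w = v := by decide +kernel
theorem d2_eq : ∀ v w, d2 v w = 0 → w = v := by decide +kernel
theorem d1_lip : ∀ v a b, G1.Adj a b → d1 v b ≤ d1 v a + 1 := by decide +kernel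
theorem d2_lip : ∀ v a b, G2.Adj a b → d2 v b ≤ d2 v a + 1 := by decide +kernel
theorem p1_spec : ∀ v w, d1 v w ≠ 0 → G1.Adj (p1 v w) w ∧ d1 v (p1 v w) + 1 = d1 v w := by
  decide +kernel
theorem p2_spec : ∀ v w, d2 v w ≠ 0 → G2.Adj (p2 v w) w ∧ d2 v (p2 v w) + 1 = d2 v w := by
  decide +kernel

theorem PQ : ∀ i j, ∑ k, Q i k * P k j = if i = j then 5087898144 else 0 := by decide +kernel
theorem PD : ∀ i j, ∑ k, (d2 i k : ℤ) * P k j = ∑ k, P i k * (d1 k j : ℤ) := by decide +kernel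

theorem color1 : ∀ i j, G1.Adj i j → (![0, 0, 0, 1, 1, 1, 1, 1, 1, 1, 1, 1, 1, 1, 1, 1, 1, 1, 1, 1] : Fin 20 → Fin 2) i ≠
    (![0, 0, 0, 1, 1, 1, 1, 1, 1, 1, 1, 1, 1, 1, 1, 1, 1, 1, 1, 1] : Fin 20 → Fin 2) j := by decide +kernel

theorem G1_bip : G1.IsBipartite :=
  ⟨SimpleGraph.Coloring.mk _ fun {i j} h => color1 i j h⟩

theorem G2_not_bip : ¬ G2.IsBipartite := by
  rintro ⟨c⟩
  have h1 : c 19 ≠ c 3 := c.valid (by decide +kernel)
  have h2 : c 3 ≠ c 0 := c.valid (by decide +kernel)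
  have h3 : c 19 ≠ c 0 := c.valid (by decide +kernel)
  generalize c 19 = x at h1 h3
  generalize c 3 = y at h1 h2
  generalize c 0 = z at h2 h3
  revert x y z
  decide

theorem charpoly_eq : (distMatrix G1).charpoly = (distMatrix G2).charpoly := by
  have e1 : distMatrix G1 = Matrix.of fun i j => ((d1 i j : ℕ) : ℝ) := by
    ext i j
    simp only [distMatrix, Matrix.of_apply]
    rw [dist_eq G1 d1 p1 d1_zero d1_lip d1_eq p1_spec]
  have e2 : distMatrix G2 = Matrix.of fun i j => ((d2 i j : ℕ) : ℝ) := by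
    ext i j
    simp only [distMatrix, Matrix.of_apply]
    rw [dist_eq G2 d2 p2 d2_zero d2_lip d2_eq p2_spec]
  set PR : Matrix (Fin 20) (Fin 20) ℝ := Matrix.of fun i j => ((P i j : ℤ) : ℝ) with hPR
  set QR : Matrix (Fin 20) (Fin 20) ℝ := Matrix.of fun i j => ((Q i j : ℤ) : ℝ) with hQR
  have hQP : QR * PR = (5087898144 : ℝ) • (1 : Matrix (Fin 20) (Fin 20) ℝ) := by
    ext i j
    have h := congrArg (Int.cast : ℤ → ℝ) (PQ i j)
    rw [Matrix.mul_apply, Matrix.smul_apply, Matrix.one_apply]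
    simp only [hPR, hQR, Matrix.of_apply]
    push_cast at h
    rw [h]
    split_ifs <;> simp
  have hDP : distMatrix G2 * PR = PR * distMatrix G1 := by
    rw [e1, e2]
    ext i j
    have h := congrArg (Int.cast : ℤ → ℝ) (PD i j)
    rw [Matrix.mul_apply, Matrix.mul_apply]
    simp only [hPR, Matrix.of_apply]
    push_cast at h
    exact h
  have hdet : PR.det ≠ 0 := by
    intro h0
    have h := congrArg Matrix.det hQP
    rw [Matrix.det_mul, h0, mul_zero, Matrix.det_smul, Matrix.det_one, mul_one] at h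
    have : (0 : ℝ) < (5087898144 : ℝ) ^ Fintype.card (Fin 20) := by positivity
    exact this.ne h
  have hunit : IsUnit PR := (Matrix.isUnit_iff_isUnit_det PR).2 (isUnit_iff_ne_zero.2 hdet)
  obtain ⟨u, hu⟩ := hunit
  have h1 : distMatrix G2 = u * distMatrix G1 * (u⁻¹ : (Matrix (Fin 20) (Fin 20) ℝ)ˣ) := by
    rw [hu, ← hDP, ← hu, mul_assoc, Units.mul_inv, mul_one]
  rw [h1, Matrix.coe_units_inv, Matrix.charpoly_units_conj]

/-- **The distance spectrum does not determine bipartiteness.**  There are two connected graphs on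
20 vertices with the same distance spectrum, one bipartite and the other not. -/
theorem result : ∃ Γ Ω : SimpleGraph (Fin 20), Γ.Connected ∧ Ω.Connected ∧
    distSpectrum Γ = distSpectrum Ω ∧ Γ.IsBipartite ∧ ¬ Ω.IsBipartite :=
  ⟨G1, G2, connected G1 d1 p1 d1_eq p1_spec, connected G2 d2 p2 d2_eq p2_spec,
    by rw [distSpectrum, distSpectrum, charpoly_eq], G1_bip, G2_not_bip⟩

end Pool.Agent.Results.MP_69260a_co.TwentyVertices
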